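import Pool.Agent.H70.PW.Targets

/-! Module FOL: the Fourier coefficients of the functions of the stage. -/

set_option autoImplicit false

namespace Pool.Agent.H33.PW.FOL

open Finset Pool.Agent.H6.NB Pool.Agent.H70.OQ Pool.Agent.H70.PW

theorem L1k_zero_le {V : Type} [Fintype V] [DecidableEq V] (f : (V → Bool) → Bool) :
    L1k 0 (fun y => bi (f y)) ≤ 1 := by
  unfold L1k
  rw [powersetCard_zero, sum_singleton]
  unfold hat
  simp only [prod_empty, mul_one]
  rw [abs_div, div_le_one (by positivity)]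
  calc |∑ y, bi (f y)| ≤ ∑ y, |bi (f y)| := abs_sum_le_sum_abs _ _
    _ ≤ ∑ _y : V → Bool, (1 : ℝ) := sum_le_sum fun y _ => by
        unfold bi
        split_ifs <;> simp
    _ = 2 ^ Fintype.card V := by simp
    _ ≤ |(2 : ℝ) ^ Fintype.card V| := le_abs_self _

theorem card_le {n a : ℕ} (I : Finset (Om n (2 ^ a))) [DecidableEq (Om n (2 ^ a))] :
    (Fintype.card (Σ s : {s // s ∈ I}, VV (qs s.1.1)) : ℝ) ≤
      (I.card : ℝ) * (2 * 2 ^ (10 * n ^ 2 ^ a + 100)) := by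
  rw [Fintype.card_sigma]
  push_cast
  have h1 : ∀ s : {s // s ∈ I}, ((Fintype.card (VV (qs s.1.1)) : ℕ) : ℝ) ≤
      2 * 2 ^ (10 * n ^ 2 ^ a + 100) := by
    intro s
    have h2 : Fintype.card (VV (qs s.1.1)) = 2 * 2 ^ qs s.1.1 := by
      simp [Fintype.card_prod]
    rw [h2]
    push_cast
    have h3 : qs s.1.1 ≤ 10 * n ^ 2 ^ a + 100 := by
      unfold qs
      have := s.1.2.2
      omega
    have h4 : (2 : ℝ) ^ qs s.1.1 ≤ 2 ^ (10 * n ^ 2 ^ a + 100) :=
      pow_le_pow_right₀ (by norm_num) h3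
    linarith
  calc ∑ s : {s // s ∈ I}, ((Fintype.card (VV (qs s.1.1)) : ℕ) : ℝ)
      ≤ ∑ _s : {s // s ∈ I}, (2 * 2 ^ (10 * n ^ 2 ^ a + 100) : ℝ) := sum_le_sum fun s _ => h1 s
    _ = _ := by
        rw [sum_const, card_univ, Fintype.card_coe, nsmul_eq_mul]

/-- FOL -/
theorem fol (h1 : T_L1K) : T_FOL := by
  intro k M n a t w S' J p G L B hP I j F inst hI hj hF
  rcases Nat.eq_zero_or_pos j with rfl | hj1
  · rw [pow_zero]
    exact L1k_zero_le F
  · obtain ⟨w', hw', hB⟩ := hP.BL j hj1 hj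
    have hc := card_le I
    rw [hI] at hc
    have h2 := h1 (Σ s : {s // s ∈ I}, VV (qs s.1.1)) S' (k + 4) w' j F hw' hF
    refine h2.trans (le_trans ?_ hB)
    have e1 : k + 4 + 1 = k + 5 := rfl
    rw [e1]
    gcongr

end Pool.Agent.H33.PW.FOL
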